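import Pool.Agent.BLP.StmtsV

/-!
# Squad BLP, row V_REC: disjoint rectangles
-/

namespace Pool.Agent.BLP.V.H37

open MeasureTheory Pool.Agent.BLP Pool.Agent.BLP.V Set

/-- disjoint open rectangles inside a rectangle -/
theorem area {ι : Type} (S : Finset ι) (a a' b b' : ι → ℝ) (A A' B B' : ℝ) (hA : A ≤ A')
    (hB : B ≤ B')
    (hd : ∀ z ∈ S, ∀ z' ∈ S, z ≠ z' → Disjoint (Ioo (a z) (a' z) ×ˢ Ioo (b z) (b' z))
      (Ioo (a z') (a' z') ×ˢ Ioo (b z') (b' z')))
    (hi : ∀ z ∈ S, A ≤ a z ∧ a' z ≤ A' ∧ B ≤ b z ∧ b' z ≤ B') :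
    ∑ z ∈ S, max (a' z - a z) 0 * max (b' z - b z) 0 ≤ (A' - A) * (B' - B) := by
  have h1 : (volume : Measure (ℝ × ℝ)) (⋃ z ∈ S, Ioo (a z) (a' z) ×ˢ Ioo (b z) (b' z)) =
      ∑ z ∈ S, volume (Ioo (a z) (a' z) ×ˢ Ioo (b z) (b' z)) := by
    apply measure_biUnion_finset
    · intro z hz z' hz' hne
      exact hd z hz z' hz' hne
    · intro z _
      exact measurableSet_Ioo.prod measurableSet_Ioo
  have h2 : ∀ z ∈ S, (volume : Measure (ℝ × ℝ)) (Ioo (a z) (a' z) ×ˢ Ioo (b z) (b' z)) =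
      ENNReal.ofReal (max (a' z - a z) 0 * max (b' z - b z) 0) := by
    intro z _
    rw [Measure.volume_eq_prod, Measure.prod_prod, Real.volume_Ioo, Real.volume_Ioo,
      ENNReal.ofReal_mul (le_max_right _ _)]
    congr 1
    · rcases le_total (a' z - a z) 0 with h | h
      · rw [max_eq_right h, ENNReal.ofReal_of_nonpos h, ENNReal.ofReal_zero]
      · rw [max_eq_left h]
    · rcases le_total (b' z - b z) 0 with h | h
      · rw [max_eq_right h, ENNReal.ofReal_of_nonpos h, ENNReal.ofReal_zero]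
      · rw [max_eq_left h]
  have h3 : (volume : Measure (ℝ × ℝ)) (⋃ z ∈ S, Ioo (a z) (a' z) ×ˢ Ioo (b z) (b' z)) ≤
      volume (Icc A A' ×ˢ Icc B B') := by
    apply measure_mono
    intro x hx
    simp only [mem_iUnion] at hx
    obtain ⟨z, hz, hx1, hx2⟩ := hx
    obtain ⟨i1, i2, i3, i4⟩ := hi z hz
    exact ⟨⟨i1.trans hx1.1.le, hx1.2.le.trans i2⟩, ⟨i3.trans hx2.1.le, hx2.2.le.trans i4⟩⟩
  rw [h1, Finset.sum_congr rfl h2, Measure.volume_eq_prod, Measure.prod_prod, Real.volume_Icc,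
    Real.volume_Icc, ← ENNReal.ofReal_mul (by linarith),
    ← ENNReal.ofReal_sum_of_nonneg
      (fun z _ => mul_nonneg (le_max_right _ _) (le_max_right _ _))] at h3
  exact (ENNReal.ofReal_le_ofReal_iff (mul_nonneg (by linarith) (by linarith))).1 h3

theorem v_rec (srt : SrtStmt) : RecStmt := by
  intro n U hU e₁ e₂ e₃ e₄ h12 h23 h34 q M p R S t₀ t₁ hq hMn hp hR hR0 hS ht₀ ht₁
  obtain ⟨f, hf⟩ : ∃ f : ℕ → ℝ → ℝ, f = fun k t => U e₂ k t - U e₁ k t := ⟨_, rfl⟩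
  obtain ⟨g, hg⟩ : ∃ g : ℕ → ℝ → ℝ, g = fun k t => U e₄ k t - U e₃ k t := ⟨_, rfl⟩
  have fmono : ∀ k s t, k ≤ n → s ≤ t → t ≤ e₁ → f k s ≤ f k t := by
    intro k s t hk hst ht
    rw [hf]
    exact hU.qua e₁ e₂ k s t hk h12 hst ht
  have gmono : ∀ k s t, k ≤ n → s ≤ t → t ≤ e₃ → g k s ≤ g k t := by
    intro k s t hk hst ht
    rw [hg]
    exact hU.qua e₃ e₄ k s t hk h34 hst ht
  have fanti : ∀ k k' t, k ≤ k' → k' ≤ n → t ≤ e₁ → f k' t ≤ f k t := by
    intro k k' t hkk'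
    induction k', hkk' using Nat.le_induction with
    | base => intro _ _; exact le_rfl
    | succ j hj ih =>
      intro hjn ht
      refine le_trans ?_ (ih (by omega) ht)
      rw [hf]
      exact hU.ver e₁ e₂ j t (by omega) h12 ht
  have ganti : ∀ k k' t, k ≤ k' → k' ≤ n → t ≤ e₃ → g k' t ≤ g k t := by
    intro k k' t hkk'
    induction k', hkk' using Nat.le_induction with
    | base => intro _ _; exact le_rfl
    | succ j hj ih =>
      intro hjn ht
      refine le_trans ?_ (ih (by omega) ht)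
      rw [hg]
      exact hU.ver e₃ e₄ j t (by omega) h34 ht
  -- the sorted sets
  have hP : ∀ (k k' : ℕ) (c d : ℝ), k ≤ k' → k' ≤ n →
      (∃ t, t ≤ e₂ ∧ (e₁ < t ∨ c ≤ f k t) ∧ g k t ≤ d) →
      ∃ t, t ≤ e₂ ∧ (e₁ < t ∨ c ≤ f k' t) ∧ g k' t ≤ d := by
    intro k k' c d hkk'
    induction k', hkk' using Nat.le_induction with
    | base => intro _ h; exact h
    | succ j hj ih =>
      intro hjn h
      obtain ⟨t, ht2, hc, hd⟩ := ih (by omega) h
      rw [hf] at hc ⊢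
      rw [hg] at hd ⊢
      exact srt n U hU e₁ e₂ e₃ e₄ h12 h23 h34 j t c d (by omega) ht2 hc hd
  -- facts for the sites
  have hsite : ∀ z ∈ S, z.1 * q ≤ n ∧ (z.1 + 1) * q ≤ n ∧ z.1 * q ≤ (z.1 + 1) * q ∧
      (z.1 + 1) * q ≤ M ∧ 0 ≤ t₀ z ∧ t₀ z ≤ R ∧ 0 ≤ t₁ z ∧ t₁ z ≤ R := by
    intro z hz
    obtain ⟨a1, a2⟩ := hS z hz
    obtain ⟨b1, b2⟩ := ht₀ z hz
    obtain ⟨c1, c2⟩ := ht₁ z hz
    have h1 : z.1 * q ≤ (z.1 + 1) * q := Nat.mul_le_mul_right _ (Nat.le_succ _)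
    have h0 : (0 : ℝ) ≤ z.2 * p := mul_nonneg (Nat.cast_nonneg _) hp
    exact ⟨by omega, by omega, h1, a1, h0.trans b1, b2.trans a2, h0.trans c1, c2.trans a2⟩
  have key : ∑ z ∈ S, max (f ((z.1 + 1) * q) (t₁ z) - f (z.1 * q) (t₀ z)) 0 *
      max (g (z.1 * q) (t₀ z) - g ((z.1 + 1) * q) (t₁ z)) 0 ≤
      (f 0 R - f M 0) * (g 0 R - g M 0) := by
    apply area S (fun z => f (z.1 * q) (t₀ z)) (fun z => f ((z.1 + 1) * q) (t₁ z))
      (fun z => g ((z.1 + 1) * q) (t₁ z)) (fun z => g (z.1 * q) (t₀ z)) (f M 0) (f 0 R) (g M 0)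
      (g 0 R)
    · exact (fanti 0 M 0 (Nat.zero_le _) hMn (hR0.trans hR)).trans
        (fmono 0 0 R (Nat.zero_le _) hR0 hR)
    · exact (ganti 0 M 0 (Nat.zero_le _) hMn (hR0.trans (hR.trans (h12.trans h23)))).trans
        (gmono 0 0 R (Nat.zero_le _) hR0 (hR.trans (h12.trans h23)))
    · -- disjointness
      have main : ∀ z ∈ S, ∀ z' ∈ S, z.1 < z'.1 ∨ (z.1 = z'.1 ∧ z.2 < z'.2) →
          Disjoint (Ioo (f (z.1 * q) (t₀ z)) (f ((z.1 + 1) * q) (t₁ z)) ×ˢ
            Ioo (g ((z.1 + 1) * q) (t₁ z)) (g (z.1 * q) (t₀ z)))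
          (Ioo (f (z'.1 * q) (t₀ z')) (f ((z'.1 + 1) * q) (t₁ z')) ×ˢ
            Ioo (g ((z'.1 + 1) * q) (t₁ z')) (g (z'.1 * q) (t₀ z'))) := by
        intro z hz z' hz' hzz
        obtain ⟨s1, s2, s3, s4, s5, s6, s7, s8⟩ := hsite z hz
        obtain ⟨r1, r2, r3, r4, r5, r6, r7, r8⟩ := hsite z' hz'
        rw [Set.disjoint_left]
        rintro ⟨c, d⟩ ⟨hc, hd⟩ ⟨hc', hd'⟩
        simp only [mem_Ioo] at hc hd hc' hd'
        rcases hzz with h | ⟨h1, h2⟩
        · -- different levels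
          have hle : (z.1 + 1) * q ≤ z'.1 * q := Nat.mul_le_mul_right _ h
          obtain ⟨t, ht2, htc, htd⟩ := hP ((z.1 + 1) * q) (z'.1 * q) c d hle r1
            ⟨t₁ z, s8.trans (hR.trans h12), Or.inr hc.2.le, hd.1.le⟩
          -- `t < t₀ z'`
          have hlt : t < t₀ z' := by
            by_contra hcon
            have := gmono (z'.1 * q) (t₀ z') t r1 (not_lt.1 hcon) (ht2.trans h23)
            linarith [hd'.2]
          have ht1 : t ≤ e₁ := hlt.le.trans (r6.trans hR)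
          rcases htc with h' | h'
          · linarith
          · have := fmono (z'.1 * q) t (t₀ z') r1 hlt.le (r6.trans hR)
            linarith [hc'.1]
        · -- same level, disjoint windows
          have hw : t₁ z ≤ t₀ z' := by
            have e1 := (ht₁ z hz).2
            have e2 := (ht₀ z' hz').1
            have e3 : ((z.2 : ℝ) + 1) * p ≤ z'.2 * p := by
              apply mul_le_mul_of_nonneg_right _ hp
              exact_mod_cast h2
            linarith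
          have e1 : f ((z.1 + 1) * q) (t₁ z) ≤ f (z.1 * q) (t₁ z) :=
            fanti _ _ _ s3 s2 (s8.trans hR)
          have e2 : f (z.1 * q) (t₁ z) ≤ f (z.1 * q) (t₀ z') :=
            fmono _ _ _ s1 hw (r6.trans hR)
          rw [h1] at e1 e2
          have e3 := hc'.1
          have e4 := hc.2
          rw [h1] at e4
          linarith
      intro z hz z' hz' hne
      rcases lt_trichotomy z.1 z'.1 with h | h | h
      · exact main z hz z' hz' (Or.inl h)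
      · rcases lt_trichotomy z.2 z'.2 with h2 | h2 | h2
        · exact main z hz z' hz' (Or.inr ⟨h, h2⟩)
        · exact absurd (Prod.ext h h2) hne
        · exact (main z' hz' z hz (Or.inr ⟨h.symm, h2⟩)).symm
      · exact (main z' hz' z hz (Or.inl h)).symm
    · intro z hz
      obtain ⟨s1, s2, s3, s4, s5, s6, s7, s8⟩ := hsite z hz
      have hR1 : R ≤ e₃ := hR.trans (h12.trans h23)
      refine ⟨?_, ?_, ?_, ?_⟩
      · exact (fanti (z.1 * q) M 0 (s3.trans s4) hMn (hR0.trans hR)).trans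
          (fmono _ _ _ s1 s5 (s6.trans hR))
      · exact (fanti 0 _ _ (Nat.zero_le _) s2 (s8.trans hR)).trans
          (fmono 0 _ R (Nat.zero_le _) s8 hR)
      · exact (ganti ((z.1 + 1) * q) M 0 s4 hMn (hR0.trans hR1)).trans
          (gmono _ _ _ s2 s7 (s8.trans hR1))
      · exact (ganti 0 _ _ (Nat.zero_le _) s1 (s6.trans hR1)).trans
          (gmono 0 _ R (Nat.zero_le _) s6 hR1)
  rw [hf, hg] at key
  exact key

end Pool.Agent.BLP.V.H37
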